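import Pool.Agent.V5helper41.DRB.RIGIDCore

open Module Finset

namespace Pool.Agent.V5helper41.DRB

open Pool.Agent.W544.K3 Pool.Agent.V5helper11.DRB

theorem rs_of {U U' : Type} [AddCommGroup U] [Module ℝ U] [FiniteDimensional ℝ U]
    [AddCommGroup U'] [Module ℝ U'] [FiniteDimensional ℝ U']
    (B : U →ₗ[ℝ] U →ₗ[ℝ] ℝ) (B' : U' →ₗ[ℝ] U' →ₗ[ℝ] ℝ) (R : Submodule ℝ (End ℝ U × End ℝ U'))
    (hsk : ∀ p ∈ R, Skew B p.1 ∧ Skew B' p.2)
    (hex : ∀ y, Skew B y → ∃ y', ((y, y') : End ℝ U × End ℝ U') ∈ R)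
    (hinj : ∀ p ∈ R, p.1 = 0 → p.2 = 0) :
    ∃ φ : End ℝ U → End ℝ U', (∀ y, Skew B y → ((y, φ y) : End ℝ U × End ℝ U') ∈ R) ∧
      ∀ y y', ((y, y') : End ℝ U × End ℝ U') ∈ R → y' = φ y := by
  classical
  let φ : End ℝ U → End ℝ U' := fun y => if h : Skew B y then (hex y h).choose else 0
  have hφ : ∀ y, Skew B y → ((y, φ y) : End ℝ U × End ℝ U') ∈ R := by
    intro y hy
    have h1 := (hex y hy).choose_spec
    have h2 : φ y = (hex y hy).choose := dif_pos hy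
    rw [h2]
    exact h1
  refine ⟨φ, hφ, ?_⟩
  intro y y' hp
  have h1 : ((y - y, y' - φ y) : End ℝ U × End ℝ U') ∈ R := R.sub_mem hp (hφ y (hsk _ hp).1)
  have h2 := hinj _ h1 (sub_self y)
  exact sub_eq_zero.mp h2

theorem t_RIGID (hS : S_struct) : S_rigid := by
  intro U U' _ _ _ _ _ _ B B' hB hB' d3 d4 d3' d4' R hsk hlie hex hex' hinj hinj' hdiag
  obtain ⟨φ, hφ, uniq⟩ := rs_of B B' R hsk hex hinj
  have r1 : ∀ y z, Skew B y → Skew B z → φ (y + z) = φ y + φ z := by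
    intro y z hy hz
    have h1 : ((y + z, φ y + φ z) : End ℝ U × End ℝ U') ∈ R := R.add_mem (hφ y hy) (hφ z hz)
    exact (uniq _ _ h1).symm
  have r2 : ∀ (c : ℝ) y, Skew B y → φ (c • y) = c • φ y := by
    intro c y hy
    have h1 : ((c • y, c • φ y) : End ℝ U × End ℝ U') ∈ R := R.smul_mem c (hφ y hy)
    exact (uniq _ _ h1).symm
  have r3 : ∀ y z, Skew B y → Skew B z → φ (bk y z) = bk (φ y) (φ z) := by
    intro y z hy hz
    have h1 := hlie _ (hφ y hy) _ (hφ z hz)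
    exact (uniq _ _ h1).symm
  have r4 : ∀ y', Skew B' y' → ∃ y, Skew B y ∧ φ y = y' := by
    intro y' hy'
    obtain ⟨y, hy⟩ := hex' y' hy'
    exact ⟨y, (hsk _ hy).1, (uniq _ _ hy).symm⟩
  have r5 : ∀ y z, Skew B y → Skew B z → φ y = φ z → y = z := by
    intro y z hy hz h
    have h1 : ((y - z, φ y - φ z) : End ℝ U × End ℝ U') ∈ R := R.sub_mem (hφ y hy) (hφ z hz)
    have h2 := hinj' _ h1 (sub_eq_zero.mpr h)
    exact sub_eq_zero.mp h2
  have r6 : ∀ y, Skew B y → Diag y → Diag (φ y) := by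
    intro y hy hd
    have h1 := hdiag (y, φ y) (hφ y hy)
    dsimp only at h1
    exact h1 hd
  have r7 : ∀ y, Skew B y → Skew B' (φ y) := fun y hy => (hsk _ (hφ y hy)).2
  have RR : RS B B' φ := ⟨hB, hB', d3, d4, d3', d4', r7, r1, r2, r3, r4, r5, r6⟩
  obtain ⟨Ψ, h1, h2⟩ := rigid_core hS RR
  refine ⟨Ψ, h1, ?_⟩
  rintro ⟨y, y'⟩ hp u
  have h3 := uniq y y' hp
  have h4 := h2 y (hsk _ hp).1 u
  rw [← h3] at h4
  exact h4

end Pool.Agent.V5helper41.DRB
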