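import Pool.Agent.V5helper11.DRB.RK
import Pool.Agent.V5helper11.DRB.STRUCT
import Pool.Agent.W544.K3.Defs2

open Module Finset

namespace Pool.Agent.V5helper41.DRB

open Pool.Agent.W544.K3 Pool.Agent.V5helper11.DRB

section
variable {U : Type} [AddCommGroup U] [Module ℝ U]

/-- a hyperbolic pair exists -/
theorem exists_hyp [FiniteDimensional ℝ U] {B : U →ₗ[ℝ] U →ₗ[ℝ] ℝ} (hB : Sig2 B)
    (hd : 3 ≤ finrank ℝ U) : ∃ e f : U, Hyp B e f := by
  obtain ⟨hs, p, q, hp, _, _, hneg⟩ := hB
  let φ : U →ₗ[ℝ] (Fin 2 → ℝ) := LinearMap.pi ![B p, B q]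
  have hk : LinearMap.ker φ ≠ ⊥ := by
    apply LinearMap.ker_ne_bot_of_finrank_lt
    simp; omega
  obtain ⟨v, hv, hv0⟩ := Submodule.exists_mem_ne_zero_of_ne_bot hk
  have e0 : B p v = 0 := by
    have := congrFun (LinearMap.mem_ker.mp hv) 0
    simpa [φ] using this
  have e1 : B q v = 0 := by
    have := congrFun (LinearMap.mem_ker.mp hv) 1
    simpa [φ] using this
  have hvv := hneg v hv0 (by rw [hs, e0]) (by rw [hs, e1])
  set a := Real.sqrt (B p p) with ha
  set b := Real.sqrt (-(B v v)) with hb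
  have ha2 : a ^ 2 = B p p := Real.sq_sqrt hp.le
  have hb2 : b ^ 2 = -(B v v) := Real.sq_sqrt (by linarith)
  have ha0 : a ≠ 0 := by rw [ha]; exact (Real.sqrt_pos.mpr hp).ne'
  have hb0 : b ≠ 0 := by rw [hb]; exact (Real.sqrt_pos.mpr (by linarith)).ne'
  have hvp : B v p = 0 := by rw [hs, e0]
  have hvv' : B v v = -(b ^ 2) := by linarith
  refine ⟨a⁻¹ • p + b⁻¹ • v, (1 / 2 : ℝ) • (a⁻¹ • p - b⁻¹ • v), ?_, ?_, ?_⟩
  · simp only [map_add, map_smul, LinearMap.add_apply, LinearMap.smul_apply, smul_eq_mul, e0, hvp,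
      ← ha2, hvv']
    field_simp
    ring
  · simp only [map_sub, map_smul, LinearMap.sub_apply, LinearMap.smul_apply, smul_eq_mul, e0, hvp,
      ← ha2, hvv']
    field_simp
    ring
  · simp only [map_add, map_sub, map_smul, LinearMap.add_apply,
      LinearMap.smul_apply, smul_eq_mul, e0, hvp, ← ha2, hvv']
    field_simp
    ring

/-- the projection to the orthogonal complement of a hyperbolic pair -/
def pr (B : U →ₗ[ℝ] U →ₗ[ℝ] ℝ) (e f : U) : U →ₗ[ℝ] U :=
  LinearMap.id - (B f).smulRight e - (B e).smulRight f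

theorem pr_apply (B : U →ₗ[ℝ] U →ₗ[ℝ] ℝ) (e f u : U) :
    pr B e f u = u - B f u • e - B e u • f := by
  simp [pr]

/-- orthogonal to the pair -/
def In (B : U →ₗ[ℝ] U →ₗ[ℝ] ℝ) (e f w : U) : Prop := B e w = 0 ∧ B f w = 0

theorem pr_in {B : U →ₗ[ℝ] U →ₗ[ℝ] ℝ} (hs : ∀ u v, B u v = B v u) {e f : U} (h : Hyp B e f)
    (u : U) : In B e f (pr B e f u) := by
  obtain ⟨h1, h2, h3⟩ := h
  have h4 : B f e = 1 := by rw [hs, h3]
  constructor
  · simp [pr_apply, h1, h3]
  · simp [pr_apply, h2, h4]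

theorem pr_of_in {B : U →ₗ[ℝ] U →ₗ[ℝ] ℝ} {e f w : U} (h : In B e f w) : pr B e f w = w := by
  simp [pr_apply, h.1, h.2]

theorem decomp (B : U →ₗ[ℝ] U →ₗ[ℝ] ℝ) (e f u : U) :
    u = pr B e f u + B f u • e + B e u • f := by
  rw [pr_apply]; abel

theorem B_pr {B : U →ₗ[ℝ] U →ₗ[ℝ] ℝ} (hs : ∀ u v, B u v = B v u) {e f w : U} (h : In B e f w)
    (u : U) : B w (pr B e f u) = B w u := by
  simp [pr_apply, hs w e, hs w f, h.1, h.2]

theorem hyp_symm {B : U →ₗ[ℝ] U →ₗ[ℝ] ℝ} (hs : ∀ u v, B u v = B v u) {e f : U} (h : Hyp B e f) :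
    Hyp B f e := ⟨h.2.1, h.1, by rw [hs, h.2.2]⟩

theorem in_symm {B : U →ₗ[ℝ] U →ₗ[ℝ] ℝ} {e f w : U} (h : In B e f w) : In B f e w :=
  ⟨h.2, h.1⟩

/-- there is an anisotropic vector orthogonal to the pair -/
theorem exists_aniso [FiniteDimensional ℝ U] {B : U →ₗ[ℝ] U →ₗ[ℝ] ℝ} (hB : Sig2 B)
    (hd : 3 ≤ finrank ℝ U) {e f : U} (h : Hyp B e f) : ∃ w, In B e f w ∧ B w w ≠ 0 := by
  have hs := hB.1
  by_contra hcon
  push Not at hcon
  let φ : U →ₗ[ℝ] (Fin 2 → ℝ) := LinearMap.pi ![B e, B f]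
  have hk : LinearMap.ker φ ≠ ⊥ := by
    apply LinearMap.ker_ne_bot_of_finrank_lt
    simp; omega
  obtain ⟨v, hv, hv0⟩ := Submodule.exists_mem_ne_zero_of_ne_bot hk
  have e0 : B e v = 0 := by
    have := congrFun (LinearMap.mem_ker.mp hv) 0
    simpa [φ] using this
  have e1 : B f v = 0 := by
    have := congrFun (LinearMap.mem_ker.mp hv) 1
    simpa [φ] using this
  have hvin : In B e f v := ⟨e0, e1⟩
  apply hv0
  apply nondeg' hB
  intro u
  rw [← B_pr hs hvin u]
  have h1 := pr_in hs h u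
  set w := pr B e f u
  have h2 := hcon (v + w) ⟨by simp [e0, h1.1], by simp [e1, h1.2]⟩
  have h3 := hcon v hvin
  have h4 := hcon w h1
  simp only [map_add, LinearMap.add_apply, h3, h4, hs w v] at h2
  linarith

/-- all wedges are in `n` if the basic ones are -/
theorem all_wedge {B : U →ₗ[ℝ] U →ₗ[ℝ] ℝ} (hs : ∀ u v, B u v = B v u) {e f : U} (h : Hyp B e f)
    {n : Submodule ℝ (End ℝ U)} (h0 : wedge B e f ∈ n) (h1 : ∀ w, In B e f w → wedge B e w ∈ n)
    (h2 : ∀ w, In B e f w → wedge B f w ∈ n)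
    (h3 : ∀ w w', In B e f w → In B e f w' → wedge B w w' ∈ n) (u v : U) : wedge B u v ∈ n := by
  have h4 : wedge B f e ∈ n := by rw [wedge_swap]; exact n.neg_mem h0
  have H1 : ∀ v, wedge B e v ∈ n := by
    intro v
    rw [decomp B e f v, wedge_add_right, wedge_add_right, wedge_smul_right, wedge_smul_right,
      wedge_self]
    refine n.add_mem (n.add_mem (h1 _ (pr_in hs h v)) ?_) (n.smul_mem _ h0)
    simp
  have H2 : ∀ v, wedge B f v ∈ n := by
    intro v
    rw [decomp B e f v, wedge_add_right, wedge_add_right, wedge_smul_right, wedge_smul_right,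
      wedge_self]
    refine n.add_mem (n.add_mem (h2 _ (pr_in hs h v)) (n.smul_mem _ h4)) ?_
    simp
  have H3 : ∀ w, In B e f w → ∀ v, wedge B w v ∈ n := by
    intro w hw v
    have h5 : wedge B w e ∈ n := by rw [wedge_swap]; exact n.neg_mem (h1 _ hw)
    have h6 : wedge B w f ∈ n := by rw [wedge_swap]; exact n.neg_mem (h2 _ hw)
    rw [decomp B e f v, wedge_add_right, wedge_add_right, wedge_smul_right, wedge_smul_right]
    exact n.add_mem (n.add_mem (h3 _ _ hw (pr_in hs h v)) (n.smul_mem _ h5)) (n.smul_mem _ h6)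
  rw [decomp B e f u, wedge_add_left, wedge_add_left, wedge_smul_left, wedge_smul_left]
  exact n.add_mem (n.add_mem (H3 _ (pr_in hs h u) v) (n.smul_mem _ (H1 v))) (n.smul_mem _ (H2 v))

theorem simp_A [FiniteDimensional ℝ U] {B : U →ₗ[ℝ] U →ₗ[ℝ] ℝ} (hB : Sig2 B)
    {n : Submodule ℝ (End ℝ U)} (hid : ∀ z, Skew B z → ∀ y ∈ n, z * y - y * z ∈ n)
    {e f w : U} (hef : Hyp B e f) (hw : In B e f w) (hww : B w w ≠ 0) (hn : wedge B e w ∈ n)
    {z : End ℝ U} (hz : Skew B z) : z ∈ n := by
  have hs := hB.1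
  obtain ⟨hee, hff, hef1⟩ := id hef
  have hfe1 : B f e = 1 := by rw [hs, hef1]
  have key : ∀ a b u v : U, wedge B u v ∈ n →
      wedge B (wedge B a b u) v + wedge B u (wedge B a b v) ∈ n := by
    intro a b u v h
    have := hid _ (skew_wedge hs a b) _ h
    rwa [wedge_brk (skew_wedge hs a b)] at this
  have hwe : B w e = 0 := by rw [hs, hw.1]
  have hwf : B w f = 0 := by rw [hs, hw.2]
  have h0 : wedge B e f ∈ n := by
    have h := key f w e w hn
    have h1 : wedge B f w e = w := by rw [wedge_apply, hfe1, hwe]; simp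
    have h2 : wedge B f w w = -(B w w) • f := by rw [wedge_apply, hw.2]; simp
    rw [h1, h2, wedge_self, zero_add, wedge_smul_right] at h
    have := n.smul_mem (-(B w w))⁻¹ h
    rwa [smul_smul, inv_mul_cancel₀ (neg_ne_zero.mpr hww), one_smul] at this
  have h1 : ∀ w, In B e f w → wedge B e w ∈ n := by
    intro w hw
    have hwe : B w e = 0 := by rw [hs, hw.1]
    have hwf : B w f = 0 := by rw [hs, hw.2]
    have h := key e w e f h0
    have h1 : wedge B e w e = 0 := by rw [wedge_apply, hee, hwe]; simp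
    have h2 : wedge B e w f = w := by rw [wedge_apply, hef1, hwf]; simp
    rwa [h1, h2, wedge_zero_left, zero_add] at h
  have h2 : ∀ w, In B e f w → wedge B f w ∈ n := by
    intro w hw
    have hwe : B w e = 0 := by rw [hs, hw.1]
    have hwf : B w f = 0 := by rw [hs, hw.2]
    have h := key f w f e (by rw [wedge_swap]; exact n.neg_mem h0)
    have h1 : wedge B f w f = 0 := by rw [wedge_apply, hff, hwf]; simp
    have h2 : wedge B f w e = w := by rw [wedge_apply, hfe1, hwe]; simp
    rwa [h1, h2, wedge_zero_left, zero_add] at h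
  have h3 : ∀ w w', In B e f w → In B e f w' → wedge B w w' ∈ n := by
    intro w w' hw hw'
    have hwe : B w e = 0 := by rw [hs, hw.1]
    have h := key f w e w' (h1 _ hw')
    have k1 : wedge B f w e = w := by rw [wedge_apply, hfe1, hwe]; simp
    have k2 : wedge B f w w' = -(B w w') • f := by rw [wedge_apply, hw'.2]; simp
    rw [k1, k2, wedge_smul_right] at h
    have := n.sub_mem h (n.smul_mem (-(B w w')) h0)
    simpa using this
  exact skew_mem hB (all_wedge hs hef h0 h1 h2 h3) hz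

/-- isotropic vector orthogonal to a hyperbolic pair: a partner -/
theorem partner [FiniteDimensional ℝ U] {B : U →ₗ[ℝ] U →ₗ[ℝ] ℝ} (hB : Sig2 B)
    {e f w : U} (hef : Hyp B e f) (hw : In B e f w) (hww : B w w = 0) (hw0 : w ≠ 0) :
    ∃ w2, In B e f w2 ∧ Hyp B w w2 := by
  have hs := hB.1
  have h1 : ∃ v, B w v ≠ 0 := by
    by_contra hcon
    push Not at hcon
    exact hw0 (nondeg' hB hcon)
  obtain ⟨v0, hv0⟩ := h1
  have h2 := pr_in hs hef v0
  have h3 := B_pr hs hw v0
  set v1 := pr B e f v0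
  set v := (B w v0)⁻¹ • v1 with hv
  have hv1 : In B e f v := ⟨by simp [hv, h2.1], by simp [hv, h2.2]⟩
  have hwv : B w v = 1 := by
    rw [hv, map_smul, h3, smul_eq_mul, inv_mul_cancel₀ hv0]
  refine ⟨v - (B v v / 2) • w, ⟨by simp [hv1.1, hw.1], by simp [hv1.2, hw.2]⟩, hww, ?_, ?_⟩
  · simp only [map_sub, map_smul, LinearMap.sub_apply, LinearMap.smul_apply, smul_eq_mul, hww,
      hwv, hs v w]
    ring
  · simp [hww, hwv]

/-- four vectors -/
theorem four_le [FiniteDimensional ℝ U] {B : U →ₗ[ℝ] U →ₗ[ℝ] ℝ} (hs : ∀ u v, B u v = B v u)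
    {e f w w2 : U} (hef : Hyp B e f) (hw : In B e f w) (hw2 : In B e f w2) (h : Hyp B w w2) :
    4 ≤ finrank ℝ U := by
  obtain ⟨hee, hff, hef1⟩ := hef
  obtain ⟨k1, k2, k3⟩ := h
  have hfe1 : B f e = 1 := by rw [hs, hef1]
  have k4 : B w2 w = 1 := by rw [hs, k3]
  have li : LinearIndependent ℝ ![e, f, w, w2] := by
    rw [Fintype.linearIndependent_iff]
    intro g hg
    simp only [Fin.sum_univ_four, Matrix.cons_val] at hg
    have a0 := congrArg (B f) hg
    have a1 := congrArg (B e) hg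
    have a2 := congrArg (B w2) hg
    have a3 := congrArg (B w) hg
    simp only [map_add, map_smul, smul_eq_mul, map_zero, hee, hff, hef1, hfe1, hw.1, hw.2, hw2.1,
      hw2.2, hs w e, hs w f, hs w2 e, hs w2 f, k1, k2, k3, k4] at a0 a1 a2 a3
    intro i
    fin_cases i <;> simp <;> linarith
  have := li.fintype_card_le_finrank
  simpa using this

theorem exists_perp4 [FiniteDimensional ℝ U] {B : U →ₗ[ℝ] U →ₗ[ℝ] ℝ} (hd : 5 ≤ finrank ℝ U)
    (a b c d : U) : ∃ u, u ≠ 0 ∧ B a u = 0 ∧ B b u = 0 ∧ B c u = 0 ∧ B d u = 0 := by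
  let φ : U →ₗ[ℝ] (Fin 4 → ℝ) := LinearMap.pi ![B a, B b, B c, B d]
  have hk : LinearMap.ker φ ≠ ⊥ := by
    apply LinearMap.ker_ne_bot_of_finrank_lt
    simp; omega
  obtain ⟨v, hv, hv0⟩ := Submodule.exists_mem_ne_zero_of_ne_bot hk
  have hv' := LinearMap.mem_ker.mp hv
  refine ⟨v, hv0, ?_, ?_, ?_, ?_⟩
  · simpa [φ] using congrFun hv' 0
  · simpa [φ] using congrFun hv' 1
  · simpa [φ] using congrFun hv' 2
  · simpa [φ] using congrFun hv' 3

/-- vectors orthogonal to two orthogonal hyperbolic pairs are negative -/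
theorem perp_neg [FiniteDimensional ℝ U] {B : U →ₗ[ℝ] U →ₗ[ℝ] ℝ} (hB : Sig2 B)
    {e f w w2 u : U} (hef : Hyp B e f) (hw : In B e f w) (hw2 : In B e f w2) (h : Hyp B w w2)
    (hu : In B e f u) (hu2 : In B w w2 u) (hu0 : u ≠ 0) : B u u < 0 := by
  have hs := hB.1
  obtain ⟨hee, hff, hef1⟩ := hef
  obtain ⟨k1, k2, k3⟩ := h
  by_contra hcon
  apply hu0
  apply no_three hB (u₁ := e + f) (u₂ := w + w2) (u₃ := u)
  · simp only [map_add, LinearMap.add_apply, hee, hff, hef1, hs f e]; norm_num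
  · simp only [map_add, LinearMap.add_apply, k1, k2, k3, hs w2 w]; norm_num
  · exact not_lt.mp hcon
  · simp only [map_add, LinearMap.add_apply, hw.1, hw.2, hw2.1, hw2.2]; norm_num
  · simp only [map_add, LinearMap.add_apply, hu.1, hu.2]; norm_num
  · simp only [map_add, LinearMap.add_apply, hu2.1, hu2.2]; norm_num

theorem simp_B [FiniteDimensional ℝ U] {B : U →ₗ[ℝ] U →ₗ[ℝ] ℝ} (hB : Sig2 B)
    (hd4 : finrank ℝ U ≠ 4)
    {n : Submodule ℝ (End ℝ U)} (hid : ∀ z, Skew B z → ∀ y ∈ n, z * y - y * z ∈ n)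
    {e f w : U} (hef : Hyp B e f) (hw : In B e f w) (hw0 : w ≠ 0) (hn : wedge B e w ∈ n)
    {z : End ℝ U} (hz : Skew B z) : z ∈ n := by
  have hs := hB.1
  by_cases hww : B w w = 0
  · obtain ⟨w2, h2, h3⟩ := partner hB hef hw hww hw0
    have hd := four_le hs hef hw h2 h3
    obtain ⟨u, hu0, hu1, hu2, hu3, hu4⟩ := exists_perp4 (B := B) (by omega) e f w w2
    have hneg := perp_neg hB hef hw h2 h3 ⟨hu1, hu2⟩ ⟨hu3, hu4⟩ hu0
    refine simp_A hB hid hef (w := u) ⟨hu1, hu2⟩ hneg.ne ?_ hz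
    have h := hid _ (skew_wedge hs w2 u) _ hn
    rw [wedge_brk (skew_wedge hs w2 u)] at h
    have k1 : wedge B w2 u e = 0 := by rw [wedge_apply, hs w2 e, h2.1, hs u e, hu1]; simp
    have k2 : wedge B w2 u w = u := by
      rw [wedge_apply, hs w2 w, h3.2.2, hs u w, hu3]; simp
    rwa [k1, k2, wedge_zero_left, zero_add] at h
  · exact simp_A hB hid hef hw hww hn hz

theorem simp_C [FiniteDimensional ℝ U] {B : U →ₗ[ℝ] U →ₗ[ℝ] ℝ} (hB : Sig2 B)
    {n : Submodule ℝ (End ℝ U)} (hsk : ∀ y ∈ n, Skew B y)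
    (hid : ∀ z, Skew B z → ∀ y ∈ n, z * y - y * z ∈ n)
    {e f : U} (hef : Hyp B e f) {y : End ℝ U} (hy : y ∈ n) :
    wedge B e (pr B e f (y f)) ∈ n ∧ wedge B f (pr B e f (y e)) ∈ n := by
  have hs := hB.1
  have hysk := hsk y hy
  obtain ⟨hee, hff, hef1⟩ := id hef
  have hfe1 : B f e = 1 := by rw [hs, hef1]
  have hw2 := pr_in hs hef (y f)
  have hw1 := pr_in hs hef (y e)
  have d2 := decomp B e f (y f)
  have d1 := decomp B e f (y e)
  set w2 := pr B e f (y f)
  set w1 := pr B e f (y e)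
  have s1 : B f (y f) = 0 := by
    have := hysk f f
    rw [hs (y f) f] at this
    linarith
  have s2 : B e (y e) = 0 := by
    have := hysk e e
    rw [hs (y e) e] at this
    linarith
  have s3 : B f (y e) = -(B e (y f)) := by
    have := hysk e f
    rw [hs (y e) f] at this
    linarith
  rw [s1, zero_smul, add_zero] at d2
  rw [s2, zero_smul, add_zero, s3] at d1
  have hxs := skew_wedge hs f e
  have xe : wedge B f e e = e := by rw [wedge_apply, hfe1, hee]; simp
  have xf : wedge B f e f = -f := by rw [wedge_apply, hff, hef1]; simp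
  have xw1 : wedge B f e w1 = 0 := by rw [wedge_apply, hw1.1, hw1.2]; simp
  have xw2 : wedge B f e w2 = 0 := by rw [wedge_apply, hw2.1, hw2.2]; simp
  have z1 : wedge B e w2 - wedge B f w1 ∈ n := by
    have h := hid _ hxs y hy
    have h2 := wedge_brk hysk f e
    have h3 : wedge B f e * y - y * wedge B f e = wedge B e w2 - wedge B f w1 := by
      have : wedge B f e * y - y * wedge B f e = -(y * wedge B f e - wedge B f e * y) := by abel
      rw [this, h2, d2, d1, wedge_add_left, wedge_add_right, wedge_smul_left, wedge_smul_right,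
        wedge_swap B w2 e]
      module
    rwa [h3] at h
  have z2 : wedge B e w2 + wedge B f w1 ∈ n := by
    have h := hid _ hxs _ z1
    have h2 : wedge B f e * (wedge B e w2 - wedge B f w1) -
        (wedge B e w2 - wedge B f w1) * wedge B f e = wedge B e w2 + wedge B f w1 := by
      have h3 := wedge_brk hxs e w2
      have h4 := wedge_brk hxs f w1
      rw [xe, xw2] at h3
      rw [xf, xw1] at h4
      have h5 : wedge B e (0 : U) = 0 := by rw [wedge_swap, wedge_zero_left, neg_zero]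
      have h6 : wedge B f (0 : U) = 0 := by rw [wedge_swap, wedge_zero_left, neg_zero]
      have h7 : wedge B (-f) w1 = -wedge B f w1 := by
        have := wedge_smul_left B f w1 (-1)
        simpa using this
      rw [h5, add_zero] at h3
      rw [h6, add_zero, h7] at h4
      rw [mul_sub, sub_mul]
      have : wedge B f e * wedge B e w2 - wedge B f e * wedge B f w1 -
        (wedge B e w2 * wedge B f e - wedge B f w1 * wedge B f e) =
        (wedge B f e * wedge B e w2 - wedge B e w2 * wedge B f e) -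
        (wedge B f e * wedge B f w1 - wedge B f w1 * wedge B f e) := by abel
      rw [this, h3, h4]
      abel
    rwa [h2] at h
  constructor
  · have := n.smul_mem (1 / 2 : ℝ) (n.add_mem z1 z2)
    have h : (1 / 2 : ℝ) • (wedge B e w2 - wedge B f w1 + (wedge B e w2 + wedge B f w1)) =
        wedge B e w2 := by module
    rwa [h] at this
  · have := n.smul_mem (1 / 2 : ℝ) (n.sub_mem z2 z1)
    have h : (1 / 2 : ℝ) • (wedge B e w2 + wedge B f w1 - (wedge B e w2 - wedge B f w1)) =
        wedge B f w1 := by module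
    rwa [h] at this

end

theorem t_SIMP : S_simp := by
  intro U _ _ _ B hB hd3 hd4 n hsk hid hn z hz
  have hs := hB.1
  obtain ⟨e, f, hef⟩ := exists_hyp hB hd3
  obtain ⟨hee, hff, hef1⟩ := id hef
  have hfe1 : B f e = 1 := by rw [hs, hef1]
  by_cases h1 : ∃ w, In B e f w ∧ w ≠ 0 ∧ (wedge B e w ∈ n ∨ wedge B f w ∈ n)
  · obtain ⟨w, hw, hw0, h | h⟩ := h1
    · exact simp_B hB hd4 hid hef hw hw0 h hz
    · exact simp_B hB hd4 hid (hyp_symm hs hef) (in_symm hw) hw0 h hz
  exfalso
  push Not at h1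
  have k1 : ∀ y ∈ n, pr B e f (y f) = 0 ∧ pr B e f (y e) = 0 := by
    intro y hy
    obtain ⟨a, b⟩ := simp_C hB hsk hid hef hy
    constructor
    · by_contra hne
      exact (h1 _ (pr_in hs hef _) hne).1 a
    · by_contra hne
      exact (h1 _ (pr_in hs hef _) hne).2 b
  obtain ⟨y, hy, hy0⟩ := Submodule.exists_mem_ne_zero_of_ne_bot hn
  obtain ⟨p1, p2⟩ := k1 y hy
  have hysk := hsk y hy
  have s1 : B f (y f) = 0 := by
    have := hysk f f
    rw [hs (y f) f] at this
    linarith
  have s2 : B e (y e) = 0 := by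
    have := hysk e e
    rw [hs (y e) e] at this
    linarith
  have s3 : B e (y f) = -(B f (y e)) := by
    have := hysk e f
    rw [hs (y e) f] at this
    linarith
  set c := B f (y e) with hc
  have ye : y e = c • e := by
    have := decomp B e f (y e)
    rw [p2, s2, zero_smul, add_zero, zero_add] at this
    exact this
  have yf : y f = -(c • f) := by
    have := decomp B e f (y f)
    rw [p1, s1, zero_smul, zero_add, s3, zero_add, neg_smul] at this
    exact this
  have yw : ∀ w, In B e f w → y w = -(c • w) := by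
    intro w hw
    have hwf : B w f = 0 := by rw [hs, hw.2]
    have h2 := n.neg_mem (hid _ (skew_wedge hs e w) y hy)
    have h3 : -(wedge B e w * y - y * wedge B e w) = wedge B e (c • w + y w) := by
      have := wedge_brk hysk e w
      rw [neg_sub, this, ye, wedge_smul_left, wedge_add_right, wedge_smul_right]
    rw [h3] at h2
    have h4 := (k1 _ h2).1
    have h5 : In B e f (y w) := by
      constructor
      · have := hysk e w
        rw [ye] at this
        simp only [map_smul, LinearMap.smul_apply, hw.1, smul_zero, zero_add] at this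
        exact this
      · have := hysk f w
        rw [yf] at this
        simp only [map_neg, map_smul, LinearMap.neg_apply, LinearMap.smul_apply, hw.2, smul_zero,
          neg_zero, zero_add] at this
        exact this
    have h6 : In B e f (c • w + y w) := by
      constructor
      · simp [hw.1, h5.1]
      · simp [hw.2, h5.2]
    have h7 : wedge B e (c • w + y w) f = c • w + y w := by
      rw [wedge_apply, hef1, hs (c • w + y w) f, h6.2]
      simp
    rw [h7, pr_of_in h6] at h4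
    rw [add_comm] at h4
    exact eq_neg_of_add_eq_zero_left h4
  obtain ⟨w0, hw0, hw1⟩ := exists_aniso hB hd3 hef
  have hc0 : c = 0 := by
    have h2 := hysk w0 w0
    rw [yw w0 hw0] at h2
    simp only [map_neg, map_smul, LinearMap.neg_apply, LinearMap.smul_apply, smul_eq_mul] at h2
    have : c * B w0 w0 = 0 := by linarith
    rcases mul_eq_zero.mp this with h | h
    · exact h
    · exact absurd h hw1
  apply hy0
  ext u
  rw [decomp B e f u, map_add, map_add, map_smul, map_smul, ye, yf, yw _ (pr_in hs hef u), hc0]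
  simp

end Pool.Agent.V5helper41.DRB
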