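import Pool.Agent.V5helper41.DRB.SIMP

open Module Finset

namespace Pool.Agent.V5helper41.DRB

open Pool.Agent.W544.K3 Pool.Agent.V5helper11.DRB

section one
variable {U : Type} [AddCommGroup U] [Module ℝ U]

/-- the commutator -/
def bk (y z : End ℝ U) : End ℝ U := y * z - z * y

theorem bk_swap (y z : End ℝ U) : -(bk z y) = bk y z := by
  unfold bk; abel

theorem bk_add (x y z : End ℝ U) : bk x (y + z) = bk x y + bk x z := by
  unfold bk; rw [mul_add, add_mul]; abel

theorem bk_sub (x y z : End ℝ U) : bk x (y - z) = bk x y - bk x z := by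
  unfold bk; rw [mul_sub, sub_mul]; abel

theorem bk_smul (c : ℝ) (x y : End ℝ U) : bk x (c • y) = c • bk x y := by
  unfold bk; rw [mul_smul_comm, smul_mul_assoc, smul_sub]

theorem smul_bk (c : ℝ) (x y : End ℝ U) : bk (c • x) y = c • bk x y := by
  unfold bk; rw [mul_smul_comm, smul_mul_assoc, smul_sub]

theorem wedge_zero_right (B : U →ₗ[ℝ] U →ₗ[ℝ] ℝ) (u : U) : wedge B u 0 = 0 := by
  ext z; simp [wedge_apply]

theorem wedge_neg_left (B : U →ₗ[ℝ] U →ₗ[ℝ] ℝ) (u v : U) : wedge B (-u) v = -wedge B u v := by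
  have := wedge_smul_left B u v (-1)
  simpa using this

theorem skew_add {B : U →ₗ[ℝ] U →ₗ[ℝ] ℝ} {y z : End ℝ U} (hy : Skew B y) (hz : Skew B z) :
    Skew B (y + z) := by
  intro u v
  have h1 := hy u v
  have h2 := hz u v
  simp only [LinearMap.add_apply, map_add]
  linarith

theorem skew_smul {B : U →ₗ[ℝ] U →ₗ[ℝ] ℝ} {y : End ℝ U} (hy : Skew B y) (c : ℝ) :
    Skew B (c • y) := by
  intro u v
  have h1 := hy u v
  simp only [LinearMap.smul_apply, map_smul, smul_eq_mul]
  linear_combination c * h1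

theorem skew_zero (B : U →ₗ[ℝ] U →ₗ[ℝ] ℝ) : Skew B (0 : End ℝ U) := by
  intro u v; simp

theorem skew_lie {B : U →ₗ[ℝ] U →ₗ[ℝ] ℝ} {y z : End ℝ U} (hy : Skew B y) (hz : Skew B z) :
    Skew B (bk y z) := by
  intro u v
  rw [bk]
  simp only [LinearMap.sub_apply, Module.End.mul_apply, map_sub]
  linear_combination hy (z u) v - hz u (y v) - hz (y u) v + hy u (z v)

theorem lie_wedge {B : U →ₗ[ℝ] U →ₗ[ℝ] ℝ} {y : End ℝ U} (hy : Skew B y) (u v : U) :
    (bk y (wedge B u v)) = wedge B (y u) v + wedge B u (y v) := by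
  rw [bk]; exact wedge_brk hy u v

variable {B : U →ₗ[ℝ] U →ₗ[ℝ] ℝ} {e f : U}

theorem x_e (hs : ∀ u v, B u v = B v u) (hef : Hyp B e f) : wedge B f e e = e := by
  obtain ⟨hee, hff, hef1⟩ := hef
  rw [wedge_apply, hs f e, hef1, hee]; simp

theorem x_f (hef : Hyp B e f) : wedge B f e f = -f := by
  obtain ⟨hee, hff, hef1⟩ := hef
  rw [wedge_apply, hff, hef1]; simp

theorem x_w {w : U} (hw : In B e f w) : wedge B f e w = 0 := by
  rw [wedge_apply, hw.1, hw.2]; simp

theorem ew_f (hs : ∀ u v, B u v = B v u) (hef : Hyp B e f) {w : U} (hw : In B e f w) :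
    wedge B e w f = w := by
  rw [wedge_apply, hef.2.2, hs w f, hw.2]; simp

theorem ew_e (hs : ∀ u v, B u v = B v u) (hef : Hyp B e f) {w : U} (hw : In B e f w) :
    wedge B e w e = 0 := by
  rw [wedge_apply, hef.1, hs w e, hw.1]; simp

theorem ew_w {w v : U} (hv : In B e f v) :
    wedge B e w v = -(B w v) • e := by
  rw [wedge_apply, hv.1]; simp

theorem lie_pair (hs : ∀ u v, B u v = B v u) {y : End ℝ U} (hy : Skew B y) :
    (bk (wedge B f e) y) = wedge B e (pr B e f (y f)) - wedge B f (pr B e f (y e)) := by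
  have d2 := decomp B e f (y f)
  have d1 := decomp B e f (y e)
  set w2 := pr B e f (y f)
  set w1 := pr B e f (y e)
  have s1 : B f (y f) = 0 := by
    have := hy f f
    rw [hs (y f) f] at this
    linarith
  have s2 : B e (y e) = 0 := by
    have := hy e e
    rw [hs (y e) e] at this
    linarith
  have s3 : B f (y e) = -(B e (y f)) := by
    have := hy e f
    rw [hs (y e) f] at this
    linarith
  rw [s1, zero_smul, add_zero] at d2
  rw [s2, zero_smul, add_zero, s3] at d1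
  have h2 := lie_wedge hy f e
  rw [← bk_swap, h2, d2, d1, wedge_add_left, wedge_add_right, wedge_smul_left, wedge_smul_right,
    wedge_swap B w2 e]
  module

theorem lie_pair_e (hs : ∀ u v, B u v = B v u) (hef : Hyp B e f) {w : U} (hw : In B e f w) :
    (bk (wedge B f e) (wedge B e w)) = wedge B e w := by
  rw [lie_wedge (skew_wedge hs f e), x_e hs hef, x_w hw, wedge_zero_right, add_zero]

theorem lie_pair_f (hs : ∀ u v, B u v = B v u) (hef : Hyp B e f) {w : U} (hw : In B e f w) :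
    (bk (wedge B f e) (wedge B f w)) = -wedge B f w := by
  rw [lie_wedge (skew_wedge hs f e), x_f hef, x_w hw, wedge_zero_right, add_zero, wedge_neg_left]

theorem wedge_e_inj (hs : ∀ u v, B u v = B v u) (hef : Hyp B e f) {w : U} (hw : In B e f w)
    (h : wedge B e w = 0) : w = 0 := by
  have := LinearMap.congr_fun h f
  rwa [ew_f hs hef hw] at this

theorem lie3 (hs : ∀ u v, B u v = B v u) (hef : Hyp B e f) {y : End ℝ U} (hy : Skew B y) :
    (bk (wedge B f e) (bk (wedge B f e) (bk (wedge B f e) y))) = (bk (wedge B f e) y) := by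
  have h1 := pr_in hs hef (y f)
  have h2 := pr_in hs hef (y e)
  rw [lie_pair hs hy, bk_sub, lie_pair_e hs hef h1, lie_pair_f hs hef h2, sub_neg_eq_add,
    bk_add, lie_pair_e hs hef h1, lie_pair_f hs hef h2, ← sub_eq_add_neg]

theorem eig_e (hs : ∀ u v, B u v = B v u) (hef : Hyp B e f) {y : End ℝ U} (hy : Skew B y)
    (h : (bk (wedge B f e) y) = y) : y = wedge B e (y f) ∧ In B e f (y f) := by
  have h1 := pr_in hs hef (y f)
  have h2 := pr_in hs hef (y e)
  have h3 := lie_pair (e := e) (f := f) hs hy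
  have h4 : y = wedge B e (pr B e f (y f)) + wedge B f (pr B e f (y e)) := by
    calc y = bk (wedge B f e) (bk (wedge B f e) y) := by rw [h, h]
      _ = _ := by
        rw [h3, bk_sub, lie_pair_e hs hef h1, lie_pair_f hs hef h2, sub_neg_eq_add]
  rw [h] at h3
  set w2 := pr B e f (y f)
  set w1 := pr B e f (y e)
  have h5 : y = wedge B e w2 := by
    have h6 : y + y = wedge B e w2 + wedge B e w2 := by
      nth_rewrite 1 [h3]
      nth_rewrite 1 [h4]
      abel
    have h7 : (2 : ℝ) • y = (2 : ℝ) • wedge B e w2 := by rw [two_smul, two_smul, h6]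
    exact smul_right_injective _ (two_ne_zero) h7
  have h6 : y f = w2 := by
    conv_lhs => rw [h5]
    exact ew_f hs hef h1
  rw [h6]
  exact ⟨h5, h1⟩

theorem diag_x (hs : ∀ u v, B u v = B v u) (hef : Hyp B e f) : Diag (wedge B f e) := by
  unfold Diag
  rw [eq_top_iff]
  intro v _
  rw [decomp B e f v]
  refine Submodule.add_mem _ (Submodule.add_mem _ ?_ (Submodule.smul_mem _ _ ?_))
    (Submodule.smul_mem _ _ ?_)
  · apply Submodule.mem_iSup_of_mem 0
    rw [End.mem_eigenspace_iff, zero_smul]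
    exact x_w (pr_in hs hef v)
  · apply Submodule.mem_iSup_of_mem 1
    rw [End.mem_eigenspace_iff, one_smul]
    exact x_e hs hef
  · apply Submodule.mem_iSup_of_mem (-1)
    rw [End.mem_eigenspace_iff, neg_smul, one_smul]
    exact x_f hef

/-- a positive vector orthogonal to the pair -/
theorem exists_pos_in (hB : Sig2 B) (hef : Hyp B e f) : ∃ w, In B e f w ∧ 0 < B w w := by
  have hs := hB.1
  obtain ⟨_, p, q, hp, hq, hpq, _⟩ := hB
  have h1 : ∃ u, 0 < B u u ∧ B e u = 0 := by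
    by_cases h : B e p = 0
    · exact ⟨p, hp, h⟩
    · refine ⟨B e q • p - B e p • q, ?_, ?_⟩
      · simp only [map_sub, map_smul, LinearMap.sub_apply, LinearMap.smul_apply, smul_eq_mul,
          hpq, hs q p]
        have : 0 < B e p ^ 2 := by positivity
        nlinarith [mul_pos this hq, mul_nonneg (sq_nonneg (B e q)) hp.le]
      · simp only [map_sub, map_smul, smul_eq_mul]
        ring
  obtain ⟨u, hu, hu0⟩ := h1
  have h2 := pr_in hs hef u
  refine ⟨_, h2, ?_⟩
  rw [B_pr hs h2 u, hs, pr_apply]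
  simp [hu0, hs u e, hu]

end one

/-- the situation of the theorem -/
structure RS {U U' : Type} [AddCommGroup U] [Module ℝ U] [FiniteDimensional ℝ U]
    [AddCommGroup U'] [Module ℝ U'] [FiniteDimensional ℝ U']
    (B : U →ₗ[ℝ] U →ₗ[ℝ] ℝ) (B' : U' →ₗ[ℝ] U' →ₗ[ℝ] ℝ) (φ : End ℝ U → End ℝ U') : Prop where
  hB : Sig2 B
  hB' : Sig2 B'
  d3 : 3 ≤ finrank ℝ U
  d4 : finrank ℝ U ≠ 4
  d3' : 3 ≤ finrank ℝ U'
  d4' : finrank ℝ U' ≠ 4
  sk : ∀ y, Skew B y → Skew B' (φ y)
  add : ∀ y z, Skew B y → Skew B z → φ (y + z) = φ y + φ z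
  smul : ∀ (c : ℝ) y, Skew B y → φ (c • y) = c • φ y
  brk : ∀ y z, Skew B y → Skew B z → φ (bk y z) = (bk (φ y) (φ z))
  surj : ∀ y', Skew B' y' → ∃ y, Skew B y ∧ φ y = y'
  inj : ∀ y z, Skew B y → Skew B z → φ y = φ z → y = z
  dg : ∀ y, Skew B y → Diag y → Diag (φ y)

section two
variable {U U' : Type} [AddCommGroup U] [Module ℝ U] [FiniteDimensional ℝ U]
    [AddCommGroup U'] [Module ℝ U'] [FiniteDimensional ℝ U']
    {B : U →ₗ[ℝ] U →ₗ[ℝ] ℝ} {B' : U' →ₗ[ℝ] U' →ₗ[ℝ] ℝ} {φ : End ℝ U → End ℝ U'}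

theorem cube_eq {a : ℝ} (ha : a ≠ 0) (h : a * (a * a) = a) : a = 1 ∨ a = -1 := by
  have h1 : a * ((a - 1) * (a + 1)) = 0 := by linear_combination h
  rcases mul_eq_zero.mp h1 with h2 | h2
  · exact absurd h2 ha
  · rcases mul_eq_zero.mp h2 with h3 | h3
    · left; linarith
    · right; linarith

theorem map_pair (hS : S_struct) (R : RS B B' φ) {e f : U} (hef : Hyp B e f) :
    ∃ e2 f2, Hyp B' e2 f2 ∧ φ (wedge B f e) = wedge B' f2 e2 := by
  have hs := R.hB.1
  have hs' := R.hB'.1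
  have hxs := skew_wedge hs f e
  set x2 := φ (wedge B f e) with hx2
  have hx2s : Skew B' x2 := R.sk _ hxs
  have hx20 : x2 ≠ 0 := by
    intro h0
    have h1 : φ (0 : End ℝ U) = 0 := by
      have := R.smul 0 0 (skew_zero B)
      simpa using this
    have h2 := R.inj _ _ hxs (skew_zero B) (by rw [← hx2, h0, h1])
    have h3 := LinearMap.congr_fun h2 e
    rw [x_e hs hef] at h3
    have h4 := hef.2.2
    rw [h3] at h4
    simp at h4
  have hdg : Diag x2 := R.dg _ hxs (diag_x hs hef)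
  have h3 : ∀ y', Skew B' y' → (bk x2 (bk x2 (bk x2 y'))) = (bk x2 y') := by
    intro y' hy'
    obtain ⟨y, hy, rfl⟩ := R.surj y' hy'
    have h1 := skew_lie hxs hy
    have h2 := skew_lie hxs h1
    rw [hx2, ← R.brk _ _ hxs hy, ← R.brk _ _ hxs h1, ← R.brk _ _ hxs h2, lie3 hs hef hy]
  have key : ∀ (c : ℝ) (u v : U'), wedge B' u v ≠ 0 →
      (bk x2 (wedge B' u v)) = c • wedge B' u v → c * (c * c) = c := by
    intro c u v hne hc
    have h4 := h3 _ (skew_wedge hs' u v)
    rw [hc, bk_smul, hc, bk_smul, bk_smul, hc, smul_smul, smul_smul] at h4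
    have h5 : (c * (c * c) - c) • wedge B' u v = 0 := by
      rw [sub_smul, sub_eq_zero, ← mul_assoc, h4]
    rcases smul_eq_zero.mp h5 with h | h
    · linarith
    · exact absurd h hne
  rcases hS U' B' R.hB' x2 hx20 hx2s hdg with ⟨a, e2, f2, ha, h2, hx⟩ | ⟨a, b, e1, f1, e2, f2, hb, hba, h2, hx⟩
  · obtain ⟨w, hw, hww⟩ := exists_aniso R.hB' R.d3' h2
    have hne : wedge B' e2 w ≠ 0 := by
      intro h0
      have := wedge_e_inj hs' h2 hw h0
      rw [this] at hww
      simp at hww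
    have h4 : (bk x2 (wedge B' e2 w)) = a • wedge B' e2 w := by
      rw [hx, smul_bk, lie_pair_e hs' h2 hw]
    rcases cube_eq ha (key a e2 w hne h4) with h | h
    · exact ⟨e2, f2, h2, by rw [hx, h, one_smul]⟩
    · refine ⟨f2, e2, hyp_symm hs' h2, ?_⟩
      rw [hx, h, wedge_swap B' e2 f2, neg_smul, one_smul]
  · exfalso
    obtain ⟨_, k1, k2, k3, k4, k5, k6, hneg⟩ := h2
    have h5 : 5 ≤ finrank ℝ U' := by
      have := four_le hs' k1 (w := e2) (w2 := f2) ⟨k3, k5⟩ ⟨k4, k6⟩ k2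
      have := R.d4'
      omega
    obtain ⟨w, hw0, w1, w2, w3, w4⟩ := exists_perp4 (B := B') h5 e1 f1 e2 f2
    have n1 : wedge B' e1 w ≠ 0 := fun h0 => hw0 (wedge_e_inj hs' k1 ⟨w1, w2⟩ h0)
    have n2 : wedge B' e2 w ≠ 0 := fun h0 => hw0 (wedge_e_inj hs' k2 ⟨w3, w4⟩ h0)
    have he2 : e2 ≠ 0 := by
      rintro rfl
      have := k2.2.2
      simp at this
    have n3 : wedge B' e1 e2 ≠ 0 := fun h0 => he2 (wedge_e_inj hs' k1 ⟨k3, k5⟩ h0)
    have v1 : x2 e1 = a • e1 := by
      rw [hx, LinearMap.add_apply, LinearMap.smul_apply, LinearMap.smul_apply, x_e hs' k1]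
      have : wedge B' f2 e2 e1 = 0 := by rw [wedge_apply, hs' f2 e1, hs' e2 e1, k3, k4]; simp
      rw [this]; simp
    have v2 : x2 e2 = b • e2 := by
      rw [hx, LinearMap.add_apply, LinearMap.smul_apply, LinearMap.smul_apply, x_e hs' k2]
      have : wedge B' f1 e1 e2 = 0 := x_w ⟨k3, k5⟩
      rw [this]; simp
    have v3 : x2 w = 0 := by
      rw [hx, LinearMap.add_apply, LinearMap.smul_apply, LinearMap.smul_apply, x_w ⟨w1, w2⟩,
        x_w ⟨w3, w4⟩]
      simp
    have q1 := key a e1 w n1 (by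
      rw [lie_wedge hx2s, v1, v3, wedge_zero_right, add_zero, wedge_smul_left])
    have q2 := key b e2 w n2 (by
      rw [lie_wedge hx2s, v2, v3, wedge_zero_right, add_zero, wedge_smul_left])
    have q3 := key (a + b) e1 e2 n3 (by
      rw [lie_wedge hx2s, v1, v2, wedge_smul_left, wedge_smul_right, add_smul])
    rcases cube_eq (by linarith) q1 with r1 | r1
    · rcases cube_eq (by linarith) q2 with r2 | r2
      · rw [r1, r2] at q3; norm_num at q3
      · linarith
    · linarith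

/-- `ψ` -/
def psi (R : RS B B' φ) (e : U) (f2 : U') : U →ₗ[ℝ] U' where
  toFun u := φ (wedge B e u) f2
  map_add' u v := by
    rw [wedge_add_right, R.add _ _ (skew_wedge R.hB.1 _ _) (skew_wedge R.hB.1 _ _)]; rfl
  map_smul' c u := by
    rw [wedge_smul_right, R.smul _ _ (skew_wedge R.hB.1 _ _)]; rfl

theorem psi_apply (R : RS B B' φ) (e : U) (f2 : U') (u : U) :
    psi R e f2 u = φ (wedge B e u) f2 := rfl

/-- the pair `(e, f)` corresponds to `(e2, f2)` -/
structure PR (B : U →ₗ[ℝ] U →ₗ[ℝ] ℝ) (B' : U' →ₗ[ℝ] U' →ₗ[ℝ] ℝ) (φ : End ℝ U → End ℝ U')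
    (e f : U) (e2 f2 : U') : Prop where
  h : Hyp B e f
  h' : Hyp B' e2 f2
  hx : φ (wedge B f e) = wedge B' f2 e2

theorem RS.neg (R : RS B B' φ) {y : End ℝ U} (hy : Skew B y) : φ (-y) = -φ y := by
  have := R.smul (-1) y hy
  simpa using this

theorem PR.symm (R : RS B B' φ) {e f : U} {e2 f2 : U'} (P : PR B B' φ e f e2 f2) :
    PR B B' φ f e f2 e2 where
  h := hyp_symm R.hB.1 P.h
  h' := hyp_symm R.hB'.1 P.h'
  hx := by
    rw [wedge_swap, R.neg (skew_wedge R.hB.1 _ _), P.hx, ← wedge_swap]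

variable {e f : U} {e2 f2 : U'}

theorem psi_spec (R : RS B B' φ) (P : PR B B' φ e f e2 f2) {w : U} (hw : In B e f w) :
    φ (wedge B e w) = wedge B' e2 (psi R e f2 w) ∧ In B' e2 f2 (psi R e f2 w) := by
  have hs := R.hB.1
  have h1 := R.brk _ _ (skew_wedge hs f e) (skew_wedge hs e w)
  rw [lie_pair_e hs P.h hw, P.hx] at h1
  exact eig_e R.hB'.1 P.h' (R.sk _ (skew_wedge hs e w)) h1.symm

theorem psi_surj (R : RS B B' φ) (P : PR B B' φ e f e2 f2) {w' : U'} (hw' : In B' e2 f2 w') :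
    ∃ w, In B e f w ∧ psi R e f2 w = w' := by
  have hs := R.hB.1
  have hs' := R.hB'.1
  obtain ⟨y, hy, hy'⟩ := R.surj _ (skew_wedge hs' e2 w')
  have h1 := R.brk _ _ (skew_wedge hs f e) hy
  rw [hy', P.hx, lie_pair_e hs' P.h' hw', ← hy'] at h1
  have h2 := R.inj _ _ (skew_lie (skew_wedge hs f e) hy) hy h1
  obtain ⟨h3, h4⟩ := eig_e hs P.h hy h2
  refine ⟨_, h4, ?_⟩
  rw [psi_apply, ← h3, hy', ew_f hs' P.h' hw']

theorem psi_inj (R : RS B B' φ) (P : PR B B' φ e f e2 f2) {w : U} (hw : In B e f w)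
    (h : psi R e f2 w = 0) : w = 0 := by
  have hs := R.hB.1
  have h1 := (psi_spec R P hw).1
  rw [h, wedge_zero_right] at h1
  have h0 : φ (0 : End ℝ U) = 0 := by
    have := R.smul 0 0 (skew_zero B)
    simpa using this
  have h2 := R.inj _ _ (skew_wedge hs e w) (skew_zero B) (by rw [h1, h0])
  exact wedge_e_inj hs P.h hw h2

theorem wedge_ww (R : RS B B' φ) (P : PR B B' φ e f e2 f2) {w v : U} (hw : In B e f w)
    (hv : In B e f v) : φ (wedge B w v) = wedge B' (psi R e f2 w) (psi R f e2 v) +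
      (B w v - B' (psi R e f2 w) (psi R f e2 v)) • wedge B' f2 e2 := by
  have hs := R.hB.1
  have hs' := R.hB'.1
  obtain ⟨a1, a2⟩ := psi_spec R P hw
  obtain ⟨b1, b2⟩ := psi_spec R (P.symm R) (in_symm hv)
  have h1 : (bk (wedge B e w) (wedge B f v)) = wedge B w v + (-(B w v)) • wedge B f e := by
    rw [lie_wedge (skew_wedge hs e w), ew_f hs P.h hw, ew_w hv, wedge_smul_right]
  have h2 : (bk (wedge B' e2 (psi R e f2 w)) (wedge B' f2 (psi R f e2 v))) =
      wedge B' (psi R e f2 w) (psi R f e2 v) +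
      (-(B' (psi R e f2 w) (psi R f e2 v))) • wedge B' f2 e2 := by
    rw [lie_wedge (skew_wedge hs' e2 _), ew_f hs' P.h' a2, ew_w (in_symm b2), wedge_smul_right]
  have h3 := R.brk _ _ (skew_wedge hs e w) (skew_wedge hs f v)
  rw [a1, b1, h2, h1, R.add _ _ (skew_wedge hs w v) (skew_smul (skew_wedge hs f e) _),
    R.smul _ _ (skew_wedge hs f e), P.hx] at h3
  have h4 : φ (wedge B w v) = (φ (wedge B w v) + -(B w v) • wedge B' f2 e2) +
      B w v • wedge B' f2 e2 := by module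
  rw [h4, h3]
  module

theorem star (R : RS B B' φ) (P : PR B B' φ e f e2 f2) {w v u : U} (hw : In B e f w)
    (hv : In B e f v) (hu : In B e f u) :
    B w u • psi R e f2 v - B v u • psi R e f2 w =
      (B w v - B' (psi R e f2 w) (psi R f e2 v)) • psi R e f2 u +
      B' (psi R e f2 w) (psi R e f2 u) • psi R f e2 v -
      B' (psi R f e2 v) (psi R e f2 u) • psi R e f2 w := by
  have hs := R.hB.1
  have hs' := R.hB'.1
  obtain ⟨a1, a2⟩ := psi_spec R P hw
  obtain ⟨b1, b2⟩ := psi_spec R (P.symm R) (in_symm hv)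
  obtain ⟨c1, c2⟩ := psi_spec R P hu
  obtain ⟨d1, d2⟩ := psi_spec R P hv
  have h1 : (bk (wedge B w v) (wedge B e u)) = wedge B e (B w u • v - B v u • w) := by
    rw [lie_wedge (skew_wedge hs w v)]
    have : wedge B w v e = 0 := by rw [wedge_apply, hs w e, hs v e, hw.1, hv.1]; simp
    rw [this, wedge_zero_left, zero_add, wedge_apply]
  have hin : In B e f (B w u • v - B v u • w) :=
    ⟨by simp [hw.1, hv.1], by simp [hw.2, hv.2]⟩
  have h2 := R.brk _ _ (skew_wedge hs w v) (skew_wedge hs e u)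
  obtain ⟨g1, g2⟩ := psi_spec R P hin
  rw [h1, g1, c1, wedge_ww R P hw hv] at h2
  have h3 : Skew B' (wedge B' (psi R e f2 w) (psi R f e2 v) +
      (B w v - B' (psi R e f2 w) (psi R f e2 v)) • wedge B' f2 e2) :=
    skew_add (skew_wedge hs' _ _) (skew_smul (skew_wedge hs' _ _) _)
  rw [lie_wedge h3] at h2
  have h4 : (wedge B' (psi R e f2 w) (psi R f e2 v) +
      (B w v - B' (psi R e f2 w) (psi R f e2 v)) • wedge B' f2 e2) e2 =
      (B w v - B' (psi R e f2 w) (psi R f e2 v)) • e2 := by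
    rw [LinearMap.add_apply, LinearMap.smul_apply, x_e hs' P.h', wedge_apply, hs' _ e2, a2.1,
      hs' _ e2, b2.2]
    simp
  have h5 : (wedge B' (psi R e f2 w) (psi R f e2 v) +
      (B w v - B' (psi R e f2 w) (psi R f e2 v)) • wedge B' f2 e2) (psi R e f2 u) =
      B' (psi R e f2 w) (psi R e f2 u) • psi R f e2 v -
      B' (psi R f e2 v) (psi R e f2 u) • psi R e f2 w := by
    rw [LinearMap.add_apply, LinearMap.smul_apply, x_w c2, wedge_apply]
    simp
  rw [h4, h5, wedge_smul_left] at h2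
  have h6 := LinearMap.congr_fun h2 f2
  rw [ew_f hs' P.h' g2, LinearMap.add_apply, LinearMap.smul_apply, ew_f hs' P.h' c2, ew_f hs' P.h'
    ⟨by simp [a2.1, b2.2], by simp [a2.2, b2.1]⟩, map_sub, map_smul, map_smul] at h6
  rw [h6]
  abel

theorem psi_c0 (R : RS B B' φ) (P : PR B B' φ e f e2 f2) {w : U} (hw : In B e f w) :
    B' (psi R e f2 w) (psi R f e2 w) = B w w := by
  have hs' := R.hB'.1
  obtain ⟨w', hw', hww'⟩ := exists_aniso R.hB' R.d3' P.h'
  obtain ⟨u, hu, hu'⟩ := psi_surj R P hw'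
  have h1 := star R P hw hw hu
  have h2 := congrArg (B' (psi R e f2 u)) h1
  rw [sub_self, map_zero] at h2
  simp only [map_sub, map_add, map_smul, smul_eq_mul] at h2
  rw [hs' (psi R e f2 u) (psi R f e2 w), hs' (psi R e f2 u) (psi R e f2 w)] at h2
  have h3 : (B w w - B' (psi R e f2 w) (psi R f e2 w)) * B' w' w' = 0 := by
    rw [← hu']; linarith
  rcases mul_eq_zero.mp h3 with h | h
  · linarith
  · exact absurd h hww'

theorem psi_II (R : RS B B' φ) (P : PR B B' φ e f e2 f2) {w v : U} (hw : In B e f w)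
    (hv : In B e f v) : B w w • psi R e f2 v =
      B' (psi R e f2 w) (psi R e f2 w) • psi R f e2 v +
      (2 * (B w v - B' (psi R e f2 w) (psi R f e2 v))) • psi R e f2 w := by
  have h1 := star R P hw hv hw
  rw [R.hB.1 v w, R.hB'.1 (psi R f e2 v) (psi R e f2 w)] at h1
  have h2 : B w w • psi R e f2 v = (B w w • psi R e f2 v - B w v • psi R e f2 w) +
      B w v • psi R e f2 w := by abel
  rw [h2, h1]
  module

theorem psi_Q (R : RS B B' φ) (P : PR B B' φ e f e2 f2) {w : U} (hw : In B e f w)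
    (hww : B w w ≠ 0) : B' (psi R e f2 w) (psi R e f2 w) ≠ 0 := by
  intro h0
  have h1 := psi_II R P hw hw
  rw [psi_c0 R P hw, h0, zero_smul, sub_self, mul_zero, zero_smul, add_zero] at h1
  rcases smul_eq_zero.mp h1 with h | h
  · exact hww h
  · have := psi_inj R P hw h
    rw [this] at hww
    simp at hww

theorem psi_chi (R : RS B B' φ) (P : PR B B' φ e f e2 f2) {w : U} (hw : In B e f w)
    (hww : B w w ≠ 0) : psi R f e2 w =
      (B w w / B' (psi R e f2 w) (psi R e f2 w)) • psi R e f2 w := by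
  have h1 := psi_II R P hw hw
  have hQ := psi_Q R P hw hww
  rw [psi_c0 R P hw, sub_self, mul_zero, zero_smul, add_zero] at h1
  rw [div_eq_inv_mul, mul_smul, h1, smul_smul, inv_mul_cancel₀ hQ, one_smul]

theorem exists_l (R : RS B B' φ) (P : PR B B' φ e f e2 f2) : ∃ l : ℝ, l ≠ 0 ∧
    (∀ w, In B e f w → psi R f e2 w = l • psi R e f2 w) ∧
    ∀ w v, In B e f w → In B e f v → l * B' (psi R e f2 w) (psi R e f2 v) = B w v := by
  have hs := R.hB.1
  have hs' := R.hB'.1
  obtain ⟨w0, hw0, hw00⟩ := exists_aniso R.hB R.d3 P.h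
  have hQ := psi_Q R P hw0 hw00
  have hc := psi_chi R P hw0 hw00
  set Q := B' (psi R e f2 w0) (psi R e f2 w0) with hQd
  set l := B w0 w0 / Q with hl
  have hlQ : l * Q = B w0 w0 := div_mul_cancel₀ _ hQ
  have hl0 : l ≠ 0 := div_ne_zero hw00 hQ
  have hA : ∀ v, In B e f v → B v v ≠ 0 → psi R f e2 v = l • psi R e f2 v := by
    intro v hv hvv
    have h1 := psi_chi R P hv hvv
    set m := B v v / B' (psi R e f2 v) (psi R e f2 v) with hm
    by_cases hml : m = l
    · rw [h1, hml]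
    have h2 := psi_II R P hw0 hv
    rw [← hQd] at h2
    set c := B w0 v - B' (psi R e f2 w0) (psi R f e2 v) with hcd
    rw [h1, smul_smul] at h2
    have h3 : (Q * (l - m)) • psi R e f2 v = (2 * c) • psi R e f2 w0 := by
      have : (Q * (l - m)) • psi R e f2 v = B w0 w0 • psi R e f2 v - (Q * m) • psi R e f2 v := by
        rw [← hlQ]; module
      rw [this, h2]; abel
    have hne : Q * (l - m) ≠ 0 := mul_ne_zero hQ (sub_ne_zero.mpr (Ne.symm hml))
    have h4 : psi R e f2 v = ((Q * (l - m))⁻¹ * (2 * c)) • psi R e f2 w0 := by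
      rw [mul_smul, ← h3, smul_smul, inv_mul_cancel₀ hne, one_smul]
    set k := (Q * (l - m))⁻¹ * (2 * c)
    have h5 : v - k • w0 = 0 := by
      apply psi_inj R P (w := v - k • w0)
      · exact ⟨by simp [hv.1, hw0.1], by simp [hv.2, hw0.2]⟩
      · rw [map_sub, map_smul, h4, sub_self]
    have h6 : v = k • w0 := sub_eq_zero.mp h5
    rw [h6, map_smul, map_smul, hc, smul_comm]
  have hBc : ∀ v, In B e f v → psi R f e2 v = l • psi R e f2 v := by
    intro v hv
    by_cases h1 : B v v = 0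
    · by_cases h2 : B (v + w0) (v + w0) = 0
      · have h3 : B (v - w0) (v - w0) ≠ 0 := by
          simp only [map_add, LinearMap.add_apply, h1, hs w0 v] at h2
          simp only [map_sub, LinearMap.sub_apply, h1, hs w0 v]
          intro h4
          apply hw00
          linarith
        have h4 := hA (v - w0) ⟨by simp [hv.1, hw0.1], by simp [hv.2, hw0.2]⟩ h3
        rw [map_sub, map_sub, hc, smul_sub] at h4
        exact sub_left_inj.mp h4
      · have h4 := hA (v + w0) ⟨by simp [hv.1, hw0.1], by simp [hv.2, hw0.2]⟩ h2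
        rw [map_add, map_add, hc, smul_add] at h4
        exact add_right_cancel h4
    · exact hA v hv h1
  refine ⟨l, hl0, hBc, ?_⟩
  have hD : ∀ w, In B e f w → l * B' (psi R e f2 w) (psi R e f2 w) = B w w := by
    intro w hw
    have := psi_c0 R P hw
    rwa [hBc w hw, map_smul, smul_eq_mul] at this
  intro w v hw hv
  have h1 := hD (w + v) ⟨by simp [hv.1, hw.1], by simp [hv.2, hw.2]⟩
  have h2 := hD w hw
  have h3 := hD v hv
  simp only [map_add, LinearMap.add_apply, hs v w, hs' (psi R e f2 v) (psi R e f2 w)] at h1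
  linarith

theorem four_le_orth {a b : U} (hs : ∀ u v, B u v = B v u) (h : Hyp B e f) (ha : In B e f a)
    (hb : In B e f b) (haa : B a a ≠ 0) (hbb : B b b ≠ 0) (hab : B a b = 0) :
    4 ≤ finrank ℝ U := by
  obtain ⟨hee, hff, hef1⟩ := h
  have hfe1 : B f e = 1 := by rw [hs, hef1]
  have li : LinearIndependent ℝ ![e, f, a, b] := by
    rw [Fintype.linearIndependent_iff]
    intro g hg
    simp only [Fin.sum_univ_four, Matrix.cons_val] at hg
    have a0 := congrArg (B f) hg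
    have a1 := congrArg (B e) hg
    have a2 := congrArg (B a) hg
    have a3 := congrArg (B b) hg
    simp only [map_add, map_smul, smul_eq_mul, map_zero, hee, hff, hef1, hfe1, ha.1, ha.2, hb.1,
      hb.2, hs a e, hs a f, hs b e, hs b f, hab, hs b a, mul_zero, add_zero, zero_add] at a0 a1 a2 a3
    have b2 := (mul_eq_zero.mp a2).resolve_right haa
    have b3 := (mul_eq_zero.mp a3).resolve_right hbb
    intro i
    fin_cases i
    · simp; linarith
    · simp; linarith
    · simpa using b2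
    · simpa using b3
  have := li.fintype_card_le_finrank
  simpa using this

theorem l_pos (R : RS B B' φ) (P : PR B B' φ e f e2 f2) {l : ℝ} (hl0 : l ≠ 0)
    (hl : ∀ w v, In B e f w → In B e f v → l * B' (psi R e f2 w) (psi R e f2 v) = B w v) :
    0 < l := by
  have hs := R.hB.1
  have hs' := R.hB'.1
  by_contra hcon
  have hneg : l < 0 := lt_of_le_of_ne (not_lt.mp hcon) hl0
  obtain ⟨p', hp', hpp'⟩ := exists_pos_in R.hB' P.h'
  obtain ⟨w1, hw1, hw1'⟩ := psi_surj R P hp'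
  have h1 : B w1 w1 < 0 := by
    rw [← hl w1 w1 hw1 hw1, hw1']
    exact mul_neg_of_neg_of_pos hneg hpp'
  obtain ⟨p0, hp0, hpp0⟩ := exists_pos_in R.hB P.h
  set n1 := w1 - (B p0 w1 / B p0 p0) • p0 with hn1
  have hin : In B e f n1 := ⟨by simp [hn1, hw1.1, hp0.1], by simp [hn1, hw1.2, hp0.2]⟩
  have ho : B p0 n1 = 0 := by
    rw [hn1, map_sub, map_smul, smul_eq_mul, div_mul_cancel₀ _ hpp0.ne', sub_self]
  have hnn : B n1 n1 < 0 := by
    have : B n1 n1 = B w1 w1 - (B p0 w1) ^ 2 / B p0 p0 := by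
      conv_lhs => rw [hn1]
      simp only [map_sub, map_smul, LinearMap.sub_apply, LinearMap.smul_apply, smul_eq_mul,
        hs w1 p0]
      field_simp
      ring
    rw [this]
    have : 0 ≤ (B p0 w1) ^ 2 / B p0 p0 := by positivity
    linarith
  have h4 := four_le_orth hs P.h hp0 hin hpp0.ne' hnn.ne ho
  have h5 : 5 ≤ finrank ℝ U := by
    have := R.d4
    omega
  obtain ⟨u, hu0, u1, u2, u3, u4⟩ := exists_perp4 (B := B) h5 e f p0 n1
  have huu : B u u < 0 := by
    by_contra hc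
    apply hu0
    obtain ⟨hee, hff, hef1⟩ := P.h
    apply no_three R.hB (u₁ := e + f) (u₂ := p0) (u₃ := u) _ hpp0 (not_lt.mp hc)
    · simp [hp0.1, hp0.2]
    · simp [u1, u2]
    · exact u3
    · simp only [map_add, LinearMap.add_apply, hee, hff, hef1, hs f e]; norm_num
  have hui : In B e f u := ⟨u1, u2⟩
  have k1 := hl n1 n1 hin hin
  have k2 := hl u u hui hui
  have k3 := hl n1 u hin hui
  rw [u4] at k3
  have k3' := (mul_eq_zero.mp k3).resolve_left hl0
  obtain ⟨_, i1⟩ := psi_spec R P hin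
  obtain ⟨_, i2⟩ := psi_spec R P hui
  have k1' : 0 < B' (psi R e f2 n1) (psi R e f2 n1) := by
    by_contra hc
    have := mul_nonneg_of_nonpos_of_nonpos hneg.le (not_lt.mp hc)
    linarith
  have k2' : 0 < B' (psi R e f2 u) (psi R e f2 u) := by
    by_contra hc
    have := mul_nonneg_of_nonpos_of_nonpos hneg.le (not_lt.mp hc)
    linarith
  have h0 : psi R e f2 u = 0 := by
    obtain ⟨hee, hff, hef1⟩ := P.h'
    apply no_three R.hB' (u₁ := e2 + f2) (u₂ := psi R e f2 n1) (u₃ := psi R e f2 u) _ k1' k2'.le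
    · simp [i1.1, i1.2]
    · simp [i2.1, i2.2]
    · exact k3'
    · simp only [map_add, LinearMap.add_apply, hee, hff, hef1, hs' f2 e2]; norm_num
  rw [h0] at k2'
  simp at k2'

/-- the isometry -/
noncomputable def Psi (R : RS B B' φ) (e f : U) (e2 f2 : U') (ν : ℝ) : U →ₗ[ℝ] U' :=
  ν • (psi R e f2).comp (pr B e f) + (B f).smulRight (ν⁻¹ • e2) + (B e).smulRight (ν • f2)

theorem Psi_apply (R : RS B B' φ) (e f : U) (e2 f2 : U') (ν : ℝ) (u : U) :
    Psi R e f e2 f2 ν u = ν • psi R e f2 (pr B e f u) + B f u • ν⁻¹ • e2 + B e u • ν • f2 := by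
  simp [Psi]

omit [FiniteDimensional ℝ U] in
theorem ext_pair {Pp : U → Prop} (hadd : ∀ u v, Pp u → Pp v → Pp (u + v))
    (hsmul : ∀ (c : ℝ) u, Pp u → Pp (c • u)) (he : Pp e) (hf : Pp f)
    (hw : ∀ w, In B e f w → Pp w) (hs : ∀ u v, B u v = B v u) (h : Hyp B e f) (u : U) : Pp u := by
  rw [decomp B e f u]
  exact hadd _ _ (hadd _ _ (hw _ (pr_in hs h u)) (hsmul _ _ he)) (hsmul _ _ hf)

theorem rigid_core (hS : S_struct) (R : RS B B' φ) : ∃ Ψ : U ≃ₗ[ℝ] U',
    (∀ u v, B' (Ψ u) (Ψ v) = B u v) ∧ ∀ y, Skew B y → ∀ u, φ y (Ψ u) = Ψ (y u) := by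
  have hs := R.hB.1
  have hs' := R.hB'.1
  obtain ⟨e, f, hef⟩ := exists_hyp R.hB R.d3
  obtain ⟨e2, f2, hef2, hx⟩ := map_pair hS R hef
  have P : PR B B' φ e f e2 f2 := ⟨hef, hef2, hx⟩
  obtain ⟨l, hl0, hchi, hl⟩ := exists_l R P
  have hlp := l_pos R P hl0 hl
  set ν := Real.sqrt l with hν
  have hν2 : ν * ν = l := Real.mul_self_sqrt hlp.le
  have hν0 : ν ≠ 0 := (Real.sqrt_pos.mpr hlp).ne'
  have h0 : φ (0 : End ℝ U) = 0 := by
    have := R.smul 0 0 (skew_zero B)
    simpa using this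
  obtain ⟨hee, hff, hef1⟩ := id hef
  obtain ⟨hee2, hff2, hef21⟩ := id hef2
  have hfe1 : B f e = 1 := by rw [hs, hef1]
  have hfe2 : B' f2 e2 = 1 := by rw [hs', hef21]
  let Ψ0 := Psi R e f e2 f2 ν
  have Pe : Ψ0 e = ν⁻¹ • e2 := by
    simp [Ψ0, Psi_apply, pr_apply, hee, hfe1]
  have Pf : Ψ0 f = ν • f2 := by
    simp [Ψ0, Psi_apply, pr_apply, hff, hef1]
  have Pw : ∀ w, In B e f w → Ψ0 w = ν • psi R e f2 w := by
    intro w hw
    simp [Ψ0, Psi_apply, pr_of_in hw, hw.1, hw.2]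
  have iso : ∀ u v, B' (Ψ0 u) (Ψ0 v) = B u v := by
    intro u v
    have hu := pr_in hs hef u
    have hv := pr_in hs hef v
    have d1 := decomp B e f u
    have d2 := decomp B e f v
    have k1 : B u v = B (pr B e f u) (pr B e f v) + B f u * B e v + B e u * B f v := by
      conv_lhs => rw [d1]
      simp only [map_add, map_smul, LinearMap.add_apply, LinearMap.smul_apply, smul_eq_mul]
      rw [B_pr hs hu v]
    obtain ⟨_, i1⟩ := psi_spec R P hu
    obtain ⟨_, i2⟩ := psi_spec R P hv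
    have k2 := hl _ _ hu hv
    rw [k1, ← k2]
    change B' (Psi R e f e2 f2 ν u) (Psi R e f e2 f2 ν v) = _
    rw [Psi_apply, Psi_apply]
    simp only [map_add, map_smul, LinearMap.add_apply, LinearMap.smul_apply, smul_eq_mul,
      hs' (psi R e f2 (pr B e f u)) e2, hs' (psi R e f2 (pr B e f u)) f2, i1.1, i1.2, i2.1, i2.2,
      hee2, hff2, hef21, hfe2, ← hν2]
    field_simp
    ring
  have inj : Function.Injective Ψ0 := by
    intro u v huv
    have h1 : Ψ0 (u - v) = 0 := by rw [map_sub, huv, sub_self]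
    have h2 : u - v = 0 := by
      apply nondeg' R.hB
      intro w
      rw [← iso, h1]
      simp
    exact sub_eq_zero.mp h2
  have sur : Function.Surjective Ψ0 := by
    intro u'
    have hu' := pr_in hs' hef2 u'
    obtain ⟨w, hw, hw'⟩ := psi_surj R P hu'
    refine ⟨ν⁻¹ • w + (B' f2 u' * ν) • e + (B' e2 u' * ν⁻¹) • f, ?_⟩
    rw [map_add, map_add, map_smul, map_smul, map_smul, Pe, Pf, Pw w hw, hw', smul_smul, smul_smul,
      smul_smul, inv_mul_cancel₀ hν0, one_smul, mul_assoc, mul_inv_cancel₀ hν0, mul_assoc,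
      inv_mul_cancel₀ hν0, mul_one, mul_one]
    exact (decomp B' e2 f2 u').symm
  have radd : ∀ a u v, φ (wedge B a u) = wedge B' (Ψ0 a) (Ψ0 u) →
      φ (wedge B a v) = wedge B' (Ψ0 a) (Ψ0 v) →
      φ (wedge B a (u + v)) = wedge B' (Ψ0 a) (Ψ0 (u + v)) := by
    intro a u v h1 h2
    rw [wedge_add_right, R.add _ _ (skew_wedge hs _ _) (skew_wedge hs _ _), h1, h2, map_add,
      wedge_add_right]
  have rsmul : ∀ a (c : ℝ) u, φ (wedge B a u) = wedge B' (Ψ0 a) (Ψ0 u) →
      φ (wedge B a (c • u)) = wedge B' (Ψ0 a) (Ψ0 (c • u)) := by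
    intro a c u h1
    rw [wedge_smul_right, R.smul _ _ (skew_wedge hs _ _), h1, map_smul, wedge_smul_right]
  have rsw : ∀ a b, φ (wedge B a b) = wedge B' (Ψ0 a) (Ψ0 b) →
      φ (wedge B b a) = wedge B' (Ψ0 b) (Ψ0 a) := by
    intro a b h
    rw [wedge_swap B b a, R.neg (skew_wedge hs _ _), h, ← wedge_swap]
  have w1 : φ (wedge B f e) = wedge B' (Ψ0 f) (Ψ0 e) := by
    rw [Pe, Pf, wedge_smul_left, wedge_smul_right, smul_smul, mul_inv_cancel₀ hν0, one_smul, hx]
  have w2 : ∀ w, In B e f w → φ (wedge B e w) = wedge B' (Ψ0 e) (Ψ0 w) := by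
    intro w hw
    rw [Pe, Pw w hw, wedge_smul_left, wedge_smul_right, smul_smul, inv_mul_cancel₀ hν0, one_smul,
      (psi_spec R P hw).1]
  have w3 : ∀ w, In B e f w → φ (wedge B f w) = wedge B' (Ψ0 f) (Ψ0 w) := by
    intro w hw
    rw [Pf, Pw w hw, wedge_smul_left, wedge_smul_right, smul_smul, hν2,
      (psi_spec R (P.symm R) (in_symm hw)).1, hchi w hw, wedge_smul_right]
  have w4 : ∀ w v, In B e f w → In B e f v → φ (wedge B w v) = wedge B' (Ψ0 w) (Ψ0 v) := by
    intro w v hw hv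
    rw [Pw w hw, Pw v hv, wedge_smul_left, wedge_smul_right, smul_smul, hν2, wedge_ww R P hw hv,
      hchi v hv, map_smul, smul_eq_mul, hl w v hw hv, sub_self, zero_smul, add_zero,
      wedge_smul_right]
  have all : ∀ a b, φ (wedge B a b) = wedge B' (Ψ0 a) (Ψ0 b) := by
    have ze : ∀ a, φ (wedge B a a) = wedge B' (Ψ0 a) (Ψ0 a) := by
      intro a
      rw [wedge_self, wedge_self, h0]
    have q1 : ∀ v, φ (wedge B e v) = wedge B' (Ψ0 e) (Ψ0 v) := fun v =>
      ext_pair (Pp := fun v => φ (wedge B e v) = wedge B' (Ψ0 e) (Ψ0 v)) (radd e) (rsmul e)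
        (ze e) (rsw _ _ w1) w2 hs hef v
    have q2 : ∀ v, φ (wedge B f v) = wedge B' (Ψ0 f) (Ψ0 v) := fun v =>
      ext_pair (Pp := fun v => φ (wedge B f v) = wedge B' (Ψ0 f) (Ψ0 v)) (radd f) (rsmul f)
        w1 (ze f) w3 hs hef v
    have q3 : ∀ w, In B e f w → ∀ v, φ (wedge B w v) = wedge B' (Ψ0 w) (Ψ0 v) := fun w hw v =>
      ext_pair (Pp := fun v => φ (wedge B w v) = wedge B' (Ψ0 w) (Ψ0 v)) (radd w) (rsmul w)
        (rsw _ _ (q1 w)) (rsw _ _ (q2 w)) (fun v hv => w4 w v hw hv) hs hef v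
    intro a b
    apply rsw
    exact ext_pair (Pp := fun v => φ (wedge B b v) = wedge B' (Ψ0 b) (Ψ0 v)) (radd b) (rsmul b)
        (rsw _ _ (q1 b)) (rsw _ _ (q2 b)) (fun v hv => rsw _ _ (q3 v hv b)) hs hef a
  refine ⟨LinearEquiv.ofBijective Ψ0 ⟨inj, sur⟩, iso, ?_⟩
  let N : Submodule ℝ (End ℝ U) :=
    { carrier := {y | Skew B y ∧ ∀ u, φ y (Ψ0 u) = Ψ0 (y u)}
      zero_mem' := ⟨skew_zero B, fun u => by rw [h0]; simp⟩
      add_mem' := by
        rintro y z ⟨hy, hy'⟩ ⟨hz, hz'⟩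
        refine ⟨skew_add hy hz, fun u => ?_⟩
        rw [R.add _ _ hy hz, LinearMap.add_apply, LinearMap.add_apply, hy', hz', map_add]
      smul_mem' := by
        rintro c y ⟨hy, hy'⟩
        refine ⟨skew_smul hy c, fun u => ?_⟩
        rw [R.smul _ _ hy, LinearMap.smul_apply, LinearMap.smul_apply, hy', map_smul] }
  intro y hy u
  have hN : ∀ a b, wedge B a b ∈ N := by
    intro a b
    refine ⟨skew_wedge hs a b, fun u => ?_⟩
    rw [all, wedge_apply, wedge_apply, iso, iso, map_sub, map_smul, map_smul]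
  have : y ∈ N := skew_mem R.hB hN hy
  exact this.2 u

end two

end Pool.Agent.V5helper41.DRB
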